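import Mathlib

set_option autoImplicit false

/-!
A criterion for `Aut(F_n)/⟨⟨λ^m⟩⟩` to have infinitely many normal subgroups of finite index.
-/

namespace Pool.Agent.N85.AutQ

open FreeGroup

variable {n : ℕ}

/-- homomorphisms to `E` killing the `m`-th powers of all automorphic images of `x_j`. -/
def T (E : Type) [Group E] (j : Fin n) (m : ℕ) : Type :=
  {φ : FreeGroup (Fin n) →* E // ∀ α : MulAut (FreeGroup (Fin n)), φ (α (of j)) ^ m = 1}

instance (E : Type) [Group E] [Finite E] (j : Fin n) (m : ℕ) : Finite (T E j m) := by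
  have : Finite (FreeGroup (Fin n) →* E) := Finite.of_equiv _ (FreeGroup.lift (α := Fin n) (β := E))
  unfold T
  infer_instance

/-- the action of `Aut(F_n)`. -/
def act (E : Type) [Group E] (j : Fin n) (m : ℕ) :
    MulAut (FreeGroup (Fin n)) →* Equiv.Perm (T E j m) where
  toFun α :=
    { toFun := fun φ => ⟨φ.1.comp (α⁻¹ : MulAut (FreeGroup (Fin n))).toMonoidHom,
        fun β => φ.2 (α⁻¹ * β)⟩
      invFun := fun φ => ⟨φ.1.comp α.toMonoidHom, fun β => φ.2 (α * β)⟩
      left_inv := fun φ => by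
        apply Subtype.ext
        ext x
        simp
      right_inv := fun φ => by
        apply Subtype.ext
        ext x
        simp }
  map_one' := by
    ext φ
    rfl
  map_mul' α β := by
    apply Equiv.ext
    intro φ
    apply Subtype.ext
    apply MonoidHom.ext
    intro x
    change φ.1 ((α * β)⁻¹ x) = φ.1 (β⁻¹ (α⁻¹ x))
    rw [mul_inv_rev]
    rfl

lemma act_apply (E : Type) [Group E] (j : Fin n) (m : ℕ) (α : MulAut (FreeGroup (Fin n)))
    (φ : T E j m) (x : FreeGroup (Fin n)) : (act E j m α φ).1 x = φ.1 (α⁻¹ x) := rfl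

lemma pow_apply {i j : Fin n} (hij : i ≠ j) (σ : MulAut (FreeGroup (Fin n)))
    (hi : σ (of i) = of j * of i) (hk : ∀ k, k ≠ i → σ (of k) = of k) (m : ℕ) :
    (σ ^ m) (of i) = of j ^ m * of i := by
  induction m with
  | zero => simp
  | succ m ih =>
    rw [pow_succ', MulAut.mul_apply, ih, _root_.map_mul, map_pow, hk j hij.symm, hi, ← mul_assoc,
      ← pow_succ]

lemma pow_apply' {i : Fin n} (σ : MulAut (FreeGroup (Fin n)))
    (hk : ∀ k, k ≠ i → σ (of k) = of k) (m : ℕ) (k : Fin n) (h : k ≠ i) :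
    (σ ^ m) (of k) = of k := by
  induction m with
  | zero => simp
  | succ m ih => rw [pow_succ', MulAut.mul_apply, ih, hk k h]

theorem infinite_of {i j : Fin n} (hij : i ≠ j) (σ : MulAut (FreeGroup (Fin n)))
    (hi : σ (of i) = of j * of i) (hk : ∀ k, k ≠ i → σ (of k) = of k) (m : ℕ)
    (w u : FreeGroup (Fin n))
    (H : ∀ M : ℕ, 0 < M → ∃ (E : Type) (_ : Group E) (_ : Finite E)
      (φ : FreeGroup (Fin n) →* E), (∀ α : MulAut (FreeGroup (Fin n)), φ (α (of j)) ^ m = 1) ∧
        ¬ Commute (φ w ^ M) (φ u)) :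
    Set.Infinite
          {N : Subgroup (MulAut (FreeGroup (Fin n)) ⧸
              Subgroup.normalClosure ({σ ^ m} : Set (MulAut (FreeGroup (Fin n))))) |
            N.Normal ∧ N.FiniteIndex} := by
  intro hfin
  set Q := MulAut (FreeGroup (Fin n)) ⧸
              Subgroup.normalClosure ({σ ^ m} : Set (MulAut (FreeGroup (Fin n)))) with hQ
  set S : Set (Subgroup Q) := {N | N.Normal ∧ N.FiniteIndex} with hS
  have : Finite S := hfin
  set K0 : Subgroup Q := ⨅ N : S, (N : Subgroup Q) with hK0
  have hnorm : K0.Normal := Subgroup.normal_iInf_normal fun N => N.2.1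
  have hfi : K0.FiniteIndex := Subgroup.finiteIndex_iInf fun N => N.2.2
  obtain ⟨E, _, _, φ, hφ, hcom⟩ := H K0.index (Nat.pos_of_ne_zero hfi.index_ne_zero)
  apply hcom
  have hker : Subgroup.normalClosure ({σ ^ m} : Set (MulAut (FreeGroup (Fin n)))) ≤
      (act E j m).ker := by
    have : (act E j m).ker.Normal := inferInstance
    apply Subgroup.normalClosure_le_normal
    rintro _ rfl
    rw [SetLike.mem_coe, MonoidHom.mem_ker]
    apply Equiv.ext
    intro ψ
    apply Subtype.ext
    apply FreeGroup.ext_hom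
    intro k
    have key : ∀ x : FreeGroup (Fin n), ψ.1 ((σ ^ m) x) = ψ.1 x := by
      have h1 : ψ.1.comp (σ ^ m).toMonoidHom = ψ.1 := by
        apply FreeGroup.ext_hom
        intro k
        by_cases h : k = i
        · subst h
          change ψ.1 ((σ ^ m) (of k)) = _
          have := ψ.2 1
          rw [MulAut.one_apply] at this
          rw [pow_apply hij σ hi hk m, _root_.map_mul, map_pow, this, one_mul]
        · change ψ.1 ((σ ^ m) (of k)) = _
          rw [pow_apply' σ hk m k h]
      exact fun x => DFunLike.congr_fun h1 x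
    rw [act_apply]
    change ψ.1 ((σ ^ m)⁻¹ (of k)) = ψ.1 (of k)
    rw [← key ((σ ^ m)⁻¹ (of k)), MulAut.apply_inv_self]
  set bar : Q →* Equiv.Perm (T E j m) := QuotientGroup.lift _ (act E j m) hker with hbar
  have hmem : bar.ker ∈ S := ⟨inferInstance, inferInstance⟩
  have hle : K0 ≤ bar.ker := iInf_le (fun N : S => (N : Subgroup Q)) ⟨bar.ker, hmem⟩
  have h1 : (QuotientGroup.mk (MulAut.conj w) : Q) ^ K0.index ∈ K0 :=
    Subgroup.pow_index_mem K0 _
  have h2 := hle h1
  rw [MonoidHom.mem_ker, ← QuotientGroup.mk_pow] at h2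
  have h3 : act E j m (MulAut.conj w ^ K0.index) = 1 := h2
  have h4 : φ ((MulAut.conj w ^ K0.index)⁻¹ u) = φ u := by
    have h5 : (act E j m (MulAut.conj w ^ K0.index) ⟨φ, hφ⟩).1 u = φ u := by
      rw [h3]
      rfl
    exact h5
  rw [← map_pow, ← _root_.map_inv, MulAut.conj_apply, _root_.map_mul, _root_.map_mul, inv_inv]
    at h4
  rw [_root_.map_inv, map_pow] at h4
  change φ w ^ K0.index * φ u = φ u * φ w ^ K0.index
  calc φ w ^ K0.index * φ u = φ w ^ K0.index * ((φ w ^ K0.index)⁻¹ * φ u * φ w ^ K0.index) := by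
        rw [h4]
    _ = φ u * φ w ^ K0.index := by group

end Pool.Agent.N85.AutQ
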