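import Mathlib

/-! F-noetherian rings: the abstract construction (field data in `Data`). -/

namespace Pool.Agent.N85.Fnoeth

/-- A ring is noetherian when it is left and right noetherian. -/
def IsNoeth (S : Type*) [Ring S] : Prop := IsNoetherianRing S ∧ IsNoetherianRing Sᵐᵒᵖ

/-- Every finite subset is contained in a noetherian subring. -/
def FNoetherian (R : Type*) [Ring R] : Prop :=
  ∀ A : Finset R, ∃ S : Subring R, (∀ a ∈ A, a ∈ S) ∧ IsNoeth S

/-- The noetherian subrings can be chosen monotonically. -/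
def DirectedFNoetherian (R : Type*) [Ring R] : Prop :=
  ∃ f : Finset R → Subring R, (∀ A, ∀ a ∈ A, a ∈ f A) ∧ (∀ A, IsNoeth (f A)) ∧
    ∀ A B, A ⊆ B → f A ≤ f B

/-- A ring `S` with a homomorphism from a field `D` and an injective `D`-linear map to a finite
dimensional space is left noetherian. -/
theorem noeth_of_field {D : Type*} [Field D] {S : Type*} [Ring S] (δ : D →+* S)
    {W : Type*} [AddCommGroup W] [Module D W] [FiniteDimensional D W] (Φ : S →+ W)
    (hΦ : Function.Injective Φ) (hlin : ∀ d s, Φ (δ d * s) = d • Φ s) : IsNoetherianRing S := by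
  letI : Module D S := Module.compHom S δ
  let Φ' : S →ₗ[D] W :=
    { toFun := Φ
      map_add' := Φ.map_add
      map_smul' := fun d s => hlin d s }
  haveI : IsNoetherian D W := inferInstance
  haveI : IsNoetherian D S := isNoetherian_of_injective Φ' hΦ
  haveI : IsScalarTower D S S := ⟨fun d s t => mul_assoc (δ d) s t⟩
  exact isNoetherian_of_tower D inferInstance

/-- The ambient ring. -/
@[ext] structure Big {K : Type*} [Field K] (σ : K ≃+* K) where
  c : K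
  a : K
  e : ℕ → K
  l : ℕ → K

namespace Big

variable {K : Type*} [Field K] {σ : K ≃+* K}

instance : Zero (Big σ) := ⟨⟨0, 0, 0, 0⟩⟩
instance : One (Big σ) := ⟨⟨1, 0, 0, 1⟩⟩
instance : Add (Big σ) := ⟨fun x y => ⟨x.c + y.c, x.a + y.a, x.e + y.e, x.l + y.l⟩⟩
instance : Neg (Big σ) := ⟨fun x => ⟨-x.c, -x.a, -x.e, -x.l⟩⟩
instance : Mul (Big σ) := ⟨fun x y => ⟨x.c * y.c, x.c * y.a + x.a * σ y.c,
  fun j => x.c * y.e j + x.e j * y.l j, fun j => x.l j * y.l j⟩⟩

@[simp] lemma zero_c : (0 : Big σ).c = 0 := rfl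
@[simp] lemma zero_a : (0 : Big σ).a = 0 := rfl
@[simp] lemma zero_e (j : ℕ) : (0 : Big σ).e j = 0 := rfl
@[simp] lemma zero_l (j : ℕ) : (0 : Big σ).l j = 0 := rfl
@[simp] lemma one_c : (1 : Big σ).c = 1 := rfl
@[simp] lemma one_a : (1 : Big σ).a = 0 := rfl
@[simp] lemma one_e (j : ℕ) : (1 : Big σ).e j = 0 := rfl
@[simp] lemma one_l (j : ℕ) : (1 : Big σ).l j = 1 := rfl
@[simp] lemma add_c (x y : Big σ) : (x + y).c = x.c + y.c := rfl
@[simp] lemma add_a (x y : Big σ) : (x + y).a = x.a + y.a := rfl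
@[simp] lemma add_e (x y : Big σ) (j : ℕ) : (x + y).e j = x.e j + y.e j := rfl
@[simp] lemma add_l (x y : Big σ) (j : ℕ) : (x + y).l j = x.l j + y.l j := rfl
@[simp] lemma neg_c (x : Big σ) : (-x).c = -x.c := rfl
@[simp] lemma neg_a (x : Big σ) : (-x).a = -x.a := rfl
@[simp] lemma neg_e (x : Big σ) (j : ℕ) : (-x).e j = -x.e j := rfl
@[simp] lemma neg_l (x : Big σ) (j : ℕ) : (-x).l j = -x.l j := rfl
@[simp] lemma mul_c (x y : Big σ) : (x * y).c = x.c * y.c := rfl
@[simp] lemma mul_a (x y : Big σ) : (x * y).a = x.c * y.a + x.a * σ y.c := rfl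
@[simp] lemma mul_e (x y : Big σ) (j : ℕ) : (x * y).e j = x.c * y.e j + x.e j * y.l j := rfl
@[simp] lemma mul_l (x y : Big σ) (j : ℕ) : (x * y).l j = x.l j * y.l j := rfl

lemma ext' {x y : Big σ} (hc : x.c = y.c) (ha : x.a = y.a) (he : ∀ j, x.e j = y.e j)
    (hl : ∀ j, x.l j = y.l j) : x = y :=
  Big.ext hc ha (funext he) (funext hl)

instance : Ring (Big σ) := Ring.ofMinimalAxioms
  (fun x y z => ext' (by simp; ring) (by simp; ring) (fun j => by simp; ring)
    (fun j => by simp; ring))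
  (fun x => ext' (by simp) (by simp) (fun j => by simp) (fun j => by simp))
  (fun x => ext' (by simp) (by simp) (fun j => by simp) (fun j => by simp))
  (fun x y z => ext' (by simp; ring) (by simp; ring) (fun j => by simp; ring)
    (fun j => by simp; ring))
  (fun x => ext' (by simp) (by simp) (fun j => by simp) (fun j => by simp))
  (fun x => ext' (by simp) (by simp) (fun j => by simp) (fun j => by simp))
  (fun x y z => ext' (by simp; ring) (by simp; ring) (fun j => by simp; ring)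
    (fun j => by simp; ring))
  (fun x y z => ext' (by simp; ring) (by simp; ring) (fun j => by simp; ring)
    (fun j => by simp; ring))

end Big

/-- The field data. -/
structure Data (K : Type*) [Field K] where
  σ : K ≃+* K
  ψ : K →+* K
  L : ℕ → Subfield K
  t : ℕ → K
  σL : ∀ j x, σ x ∈ L j ↔ x ∈ L j
  ψL : ∀ j x, ψ x ∈ L j
  alg : ∀ F : Finset ℕ, ∀ D : Subfield K, (∀ x, x ∈ D ↔ ∀ j ∈ F, x ∈ L j) →
    Algebra.IsAlgebraic D K
  tpow : ∀ j n, t n ^ (j + 1) ∈ L j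
  root : ∀ j x, x ^ (j + 1) = 1 → x ∈ L j
  indep : ∀ j, 1 ≤ j → LinearIndependent (L j) t
  σt : ∀ n, σ (t n) = t (n + 1)

variable {K : Type*} [Field K] (d : Data K)

/-- The ring of the example. -/
def R0 : Subring (Big d.σ) where
  carrier := {x | (∃ F : Finset ℕ, ∀ j ∉ F, x.e j = 0 ∧ x.l j = d.ψ x.c) ∧ ∀ j, x.l j ∈ d.L j}
  zero_mem' := ⟨⟨∅, fun j _ => by simp⟩, fun j => by simpa using (d.L j).zero_mem⟩
  one_mem' := ⟨⟨∅, fun j _ => by simp⟩, fun j => by simpa using (d.L j).one_mem⟩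
  add_mem' := by
    rintro x y ⟨⟨F, hF⟩, hx⟩ ⟨⟨G, hG⟩, hy⟩
    classical
    refine ⟨⟨F ∪ G, fun j hj => ?_⟩, fun j => (d.L j).add_mem (hx j) (hy j)⟩
    rw [Finset.mem_union, not_or] at hj
    obtain ⟨h1, h2⟩ := hF j hj.1
    obtain ⟨h3, h4⟩ := hG j hj.2
    simp [h1, h2, h3, h4]
  neg_mem' := by
    rintro x ⟨⟨F, hF⟩, hx⟩
    refine ⟨⟨F, fun j hj => ?_⟩, fun j => (d.L j).neg_mem (hx j)⟩
    obtain ⟨h1, h2⟩ := hF j hj
    simp [h1, h2]
  mul_mem' := by
    rintro x y ⟨⟨F, hF⟩, hx⟩ ⟨⟨G, hG⟩, hy⟩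
    classical
    refine ⟨⟨F ∪ G, fun j hj => ?_⟩, fun j => (d.L j).mul_mem (hx j) (hy j)⟩
    rw [Finset.mem_union, not_or] at hj
    obtain ⟨h1, h2⟩ := hF j hj.1
    obtain ⟨h3, h4⟩ := hG j hj.2
    simp [h1, h2, h3, h4]

/-- The finite intersections of the fields `L j`. -/
def DF (F : Finset ℕ) : Subfield K := ⨅ j ∈ F, d.L j

lemma mem_DF {F : Finset ℕ} {x : K} : x ∈ DF d F ↔ ∀ j ∈ F, x ∈ d.L j := by
  simp [DF, Subfield.mem_iInf]

lemma map_adjoin {D : Subfield K} (τ : K →+* K) (hτ : ∀ x ∈ D, τ x ∈ D) {X Y : Set K}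
    (h : ∀ x ∈ X, τ x ∈ Y) {x : K} (hx : x ∈ IntermediateField.adjoin D X) :
    τ x ∈ IntermediateField.adjoin D Y := by
  induction hx using IntermediateField.adjoin_induction with
  | mem x hx => exact IntermediateField.subset_adjoin _ _ (h x hx)
  | algebraMap x => exact IntermediateField.algebraMap_mem _ (⟨τ x, hτ x x.2⟩ : D)
  | add x y _ _ hx hy => rw [map_add]; exact add_mem hx hy
  | inv x _ hx => rw [map_inv₀]; exact inv_mem hx
  | mul x y _ _ hx hy => rw [map_mul]; exact mul_mem hx hy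

/-- The noetherian subrings of `R0 d`. -/
def SF (F : Finset ℕ) {D : Subfield K} (K1 K2 : IntermediateField D K) (h1 : K1 ≤ K2)
    (h2 : ∀ x ∈ K1, d.σ x ∈ K2) : Subring (R0 d) where
  carrier := {x | x.1.c ∈ K1 ∧ x.1.a ∈ K2 ∧ (∀ j ∈ F, x.1.e j ∈ K1 ∧ x.1.l j ∈ K1) ∧
    ∀ j ∉ F, x.1.e j = 0 ∧ x.1.l j = d.ψ x.1.c}
  zero_mem' := ⟨K1.zero_mem, K2.zero_mem, fun j _ => ⟨K1.zero_mem, K1.zero_mem⟩,
    fun j _ => by simp⟩
  one_mem' := ⟨K1.one_mem, K2.zero_mem, fun j _ => ⟨K1.zero_mem, K1.one_mem⟩,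
    fun j _ => by simp⟩
  add_mem' := by
    rintro x y ⟨a1, a2, a3, a4⟩ ⟨b1, b2, b3, b4⟩
    refine ⟨K1.add_mem a1 b1, K2.add_mem a2 b2,
      fun j hj => ⟨K1.add_mem (a3 j hj).1 (b3 j hj).1, K1.add_mem (a3 j hj).2 (b3 j hj).2⟩,
      fun j hj => ?_⟩
    obtain ⟨h1, h2⟩ := a4 j hj
    obtain ⟨h3, h4⟩ := b4 j hj
    simp [h1, h2, h3, h4]
  neg_mem' := by
    rintro x ⟨a1, a2, a3, a4⟩
    refine ⟨K1.neg_mem a1, K2.neg_mem a2,
      fun j hj => ⟨K1.neg_mem (a3 j hj).1, K1.neg_mem (a3 j hj).2⟩,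
      fun j hj => ?_⟩
    obtain ⟨h1, h2⟩ := a4 j hj
    simp [h1, h2]
  mul_mem' := by
    rintro x y ⟨a1, a2, a3, a4⟩ ⟨b1, b2, b3, b4⟩
    refine ⟨K1.mul_mem a1 b1,
      K2.add_mem (K2.mul_mem (h1 a1) b2) (K2.mul_mem a2 (h2 _ b1)),
      fun j hj => ⟨K1.add_mem (K1.mul_mem a1 (b3 j hj).1) (K1.mul_mem (a3 j hj).1 (b3 j hj).2),
        K1.mul_mem (a3 j hj).2 (b3 j hj).2⟩,
      fun j hj => ?_⟩
    obtain ⟨h1, h2⟩ := a4 j hj
    obtain ⟨h3, h4⟩ := b4 j hj
    simp [h1, h2, h3, h4]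

section noeth

variable (F : Finset ℕ) (K1 K2 K3 : IntermediateField (DF d F) K) (h1 : K1 ≤ K2)
    (h2 : ∀ x ∈ K1, d.σ x ∈ K2)

lemma mem_SF {x : R0 d} : x ∈ SF d F K1 K2 h1 h2 ↔
    x.1.c ∈ K1 ∧ x.1.a ∈ K2 ∧ (∀ j ∈ F, x.1.e j ∈ K1 ∧ x.1.l j ∈ K1) ∧
    ∀ j ∉ F, x.1.e j = 0 ∧ x.1.l j = d.ψ x.1.c := Iff.rfl

open Classical in
/-- The homomorphism of `DF d F` into the noetherian subring. -/
noncomputable def δ : DF d F →+* SF d F K1 K2 h1 h2 where
  toFun x := ⟨⟨⟨x, 0, 0, fun j => if j ∈ F then (x : K) else d.ψ x⟩,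
    ⟨F, fun j hj => by simp [hj]⟩, fun j => by
      by_cases hj : j ∈ F
      · simpa [hj] using (mem_DF d).1 x.2 j hj
      · simpa [hj] using d.ψL j x⟩,
      K1.algebraMap_mem x, K2.zero_mem, fun j hj => ⟨K1.zero_mem, by
        have h := K1.algebraMap_mem x
        have e : (if j ∈ F then (x : K) else d.ψ x) = algebraMap (DF d F) K x := if_pos hj
        show (if j ∈ F then (x : K) else d.ψ x) ∈ K1
        rw [e]
        exact h⟩, fun j hj => by simp [hj]⟩
  map_zero' := by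
    apply Subtype.ext; apply Subtype.ext
    exact Big.ext' (by simp) (by simp) (fun j => by simp) (fun j => by simp)
  map_one' := by
    apply Subtype.ext; apply Subtype.ext
    exact Big.ext' (by simp) (by simp) (fun j => by simp) (fun j => by simp)
  map_add' x y := by
    apply Subtype.ext; apply Subtype.ext
    refine Big.ext' (by simp) (by simp) (fun j => by simp) (fun j => ?_)
    by_cases hj : j ∈ F <;> simp [hj]
  map_mul' x y := by
    apply Subtype.ext; apply Subtype.ext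
    refine Big.ext' (by simp) (by simp) (fun j => by simp) (fun j => ?_)
    by_cases hj : j ∈ F <;> simp [hj]

lemma δ_c (x : DF d F) : (δ d F K1 K2 h1 h2 x).1.1.c = x := rfl
lemma δ_a (x : DF d F) : (δ d F K1 K2 h1 h2 x).1.1.a = 0 := rfl
lemma δ_e (x : DF d F) (j : ℕ) : (δ d F K1 K2 h1 h2 x).1.1.e j = 0 := rfl
lemma δ_l (x : DF d F) {j : ℕ} (hj : j ∈ F) : (δ d F K1 K2 h1 h2 x).1.1.l j = x := by
  simp [δ, hj]

/-- The linear embedding for the left side. -/
noncomputable def Φl (h13 : K1 ≤ K3) (h23 : K2 ≤ K3) :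
    SF d F K1 K2 h1 h2 →+ K3 × K3 × (F → K3) × (F → K3) where
  toFun x := (⟨x.1.1.c, h13 x.2.1⟩, ⟨x.1.1.a, h23 x.2.2.1⟩,
    fun j => ⟨x.1.1.e j, h13 (x.2.2.2.1 j j.2).1⟩, fun j => ⟨x.1.1.l j, h13 (x.2.2.2.1 j j.2).2⟩)
  map_zero' := rfl
  map_add' x y := rfl

/-- The linear embedding for the right side. -/
noncomputable def Φr (h13 : K1 ≤ K3) (h23 : ∀ x ∈ K2, d.σ.symm x ∈ K3) :
    (SF d F K1 K2 h1 h2)ᵐᵒᵖ →+ K3 × K3 × (F → K3) × (F → K3) where
  toFun x := (⟨x.unop.1.1.c, h13 x.unop.2.1⟩, ⟨d.σ.symm x.unop.1.1.a, h23 _ x.unop.2.2.1⟩,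
    fun j => ⟨x.unop.1.1.e j, h13 (x.unop.2.2.2.1 j j.2).1⟩,
    fun j => ⟨x.unop.1.1.l j, h13 (x.unop.2.2.2.1 j j.2).2⟩)
  map_zero' := by
    ext <;> simp
  map_add' x y := by
    ext <;> simp

lemma SF_ext {x y : SF d F K1 K2 h1 h2} (hc : x.1.1.c = y.1.1.c) (ha : x.1.1.a = y.1.1.a)
    (he : ∀ j ∈ F, x.1.1.e j = y.1.1.e j) (hl : ∀ j ∈ F, x.1.1.l j = y.1.1.l j) : x = y := by
  apply Subtype.ext; apply Subtype.ext
  refine Big.ext' hc ha (fun j => ?_) (fun j => ?_)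
  · by_cases hj : j ∈ F
    · exact he j hj
    · rw [(x.2.2.2.2 j hj).1, (y.2.2.2.2 j hj).1]
  · by_cases hj : j ∈ F
    · exact hl j hj
    · rw [(x.2.2.2.2 j hj).2, (y.2.2.2.2 j hj).2, hc]

theorem SF_noeth [FiniteDimensional (DF d F) K3] (h13 : K1 ≤ K3) (h23 : K2 ≤ K3)
    (h23' : ∀ x ∈ K2, d.σ.symm x ∈ K3) : IsNoeth (SF d F K1 K2 h1 h2) := by
  refine ⟨noeth_of_field (δ d F K1 K2 h1 h2) (Φl d F K1 K2 K3 h1 h2 h13 h23) ?_ ?_,
    noeth_of_field (D := DF d F) ((δ d F K1 K2 h1 h2).toOpposite fun x y => ?_)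
      (Φr d F K1 K2 K3 h1 h2 h13 h23') ?_ ?_⟩
  · intro x y hxy
    simp only [Φl, AddMonoidHom.coe_mk, ZeroHom.coe_mk, Prod.mk.injEq, Subtype.mk.injEq,
      funext_iff] at hxy
    exact SF_ext d F K1 K2 h1 h2 hxy.1 hxy.2.1 (fun j hj => hxy.2.2.1 ⟨j, hj⟩)
      (fun j hj => hxy.2.2.2 ⟨j, hj⟩)
  · intro x s
    refine Prod.ext (Subtype.ext ?_) (Prod.ext (Subtype.ext ?_) (Prod.ext
      (funext fun j => Subtype.ext ?_) (funext fun j => Subtype.ext ?_)))
    · rfl
    · show (x : K) * s.1.1.a + 0 * d.σ s.1.1.c = (x : K) * s.1.1.a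
      rw [zero_mul, add_zero]
    · show (x : K) * s.1.1.e j + 0 * s.1.1.l j = (x : K) * s.1.1.e j
      rw [zero_mul, add_zero]
    · show (δ d F K1 K2 h1 h2 x).1.1.l j * s.1.1.l j = (x : K) * s.1.1.l j
      rw [δ_l d F K1 K2 h1 h2 x j.2]
  · show _ * _ = _ * _
    rw [← map_mul, ← map_mul, mul_comm]
  · intro x y hxy
    simp only [Φr, AddMonoidHom.coe_mk, ZeroHom.coe_mk, Prod.mk.injEq, Subtype.mk.injEq,
      funext_iff] at hxy
    apply MulOpposite.unop_injective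
    exact SF_ext d F K1 K2 h1 h2 hxy.1 (d.σ.symm.injective hxy.2.1)
      (fun j hj => hxy.2.2.1 ⟨j, hj⟩) (fun j hj => hxy.2.2.2 ⟨j, hj⟩)
  · intro x s
    refine Prod.ext (Subtype.ext ?_) (Prod.ext (Subtype.ext ?_) (Prod.ext
      (funext fun j => Subtype.ext ?_) (funext fun j => Subtype.ext ?_)))
    · show s.unop.1.1.c * (x : K) = (x : K) * s.unop.1.1.c
      rw [mul_comm]
    · show d.σ.symm (s.unop.1.1.c * 0 + s.unop.1.1.a * d.σ (x : K)) =
        (x : K) * d.σ.symm s.unop.1.1.a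
      rw [mul_zero, zero_add, map_mul, RingEquiv.symm_apply_apply, mul_comm]
    · show s.unop.1.1.c * 0 + s.unop.1.1.e j * (δ d F K1 K2 h1 h2 x).1.1.l j =
        (x : K) * s.unop.1.1.e j
      rw [δ_l d F K1 K2 h1 h2 x j.2, mul_zero, zero_add, mul_comm]
    · show s.unop.1.1.l j * (δ d F K1 K2 h1 h2 x).1.1.l j = (x : K) * s.unop.1.1.l j
      rw [δ_l d F K1 K2 h1 h2 x j.2, mul_comm]

end noeth

theorem fnoetherian : FNoetherian (R0 d) := by
  classical
  intro A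
  choose G hG using fun x : R0 d => x.2.1
  let F : Finset ℕ := A.biUnion G
  let X : Set K := ⋃ x ∈ A, ({x.1.c, x.1.a} ∪ ⋃ j ∈ F, {x.1.e j, x.1.l j})
  have hX : X.Finite := by
    refine Set.Finite.biUnion A.finite_toSet fun x _ => ?_
    refine Set.Finite.union (Set.toFinite _) (Set.Finite.biUnion F.finite_toSet fun j _ => ?_)
    exact Set.toFinite _
  let Y : Set K := X ∪ d.σ '' X
  let Z : Set K := X ∪ d.σ '' X ∪ d.σ.symm '' X
  have hZ : Z.Finite := (hX.union (hX.image _)).union (hX.image _)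
  have hσD : ∀ x ∈ DF d F, (d.σ : K →+* K) x ∈ DF d F := by
    intro x hx
    rw [mem_DF] at hx ⊢
    exact fun j hj => (d.σL j x).2 (hx j hj)
  have hσD' : ∀ x ∈ DF d F, (d.σ.symm : K →+* K) x ∈ DF d F := by
    intro x hx
    rw [mem_DF] at hx ⊢
    intro j hj
    apply (d.σL j _).1
    simpa using hx j hj
  haveI := d.alg F (DF d F) (fun x => mem_DF d)
  haveI : FiniteDimensional (DF d F) (IntermediateField.adjoin (DF d F) Z) := by
    haveI := hZ.to_subtype
    exact IntermediateField.finiteDimensional_adjoin fun x _ =>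
      (Algebra.IsAlgebraic.isAlgebraic x).isIntegral
  have h1 : IntermediateField.adjoin (DF d F) X ≤ IntermediateField.adjoin (DF d F) Y :=
    IntermediateField.adjoin.mono _ _ _ Set.subset_union_left
  have h2 : ∀ x ∈ IntermediateField.adjoin (DF d F) X,
      d.σ x ∈ IntermediateField.adjoin (DF d F) Y := fun x hx =>
    map_adjoin (d.σ : K →+* K) hσD (fun y hy => Or.inr ⟨y, hy, rfl⟩) hx
  refine ⟨SF d F _ _ h1 h2, ?_, SF_noeth d F _ _ (IntermediateField.adjoin (DF d F) Z) h1 h2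
    (IntermediateField.adjoin.mono _ _ _ (Set.subset_union_left.trans Set.subset_union_left))
    (IntermediateField.adjoin.mono _ _ _ Set.subset_union_left)
    (fun x hx => map_adjoin (d.σ.symm : K →+* K) hσD' (fun y hy => ?_) hx)⟩
  · intro x hx
    have hXm : ∀ y, y ∈ ({x.1.c, x.1.a} ∪ ⋃ j ∈ F, {x.1.e j, x.1.l j} : Set K) → y ∈ X := by
      intro y hy
      exact Set.mem_biUnion hx hy
    refine ⟨IntermediateField.subset_adjoin _ _ (hXm _ (Or.inl (Or.inl rfl))),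
      IntermediateField.subset_adjoin _ _ (Or.inl (hXm _ (Or.inl (Or.inr rfl)))),
      fun j hj => ⟨IntermediateField.subset_adjoin _ _ (hXm _ (Or.inr ?_)),
        IntermediateField.subset_adjoin _ _ (hXm _ (Or.inr ?_))⟩, fun j hj => ?_⟩
    · exact Set.mem_biUnion hj (Or.inl rfl)
    · exact Set.mem_biUnion hj (Or.inr rfl)
    · apply hG x j
      intro hj'
      exact hj (Finset.mem_biUnion.2 ⟨x, hx, hj'⟩)
  · rcases hy with hy | ⟨z, hz, rfl⟩
    · exact Or.inr ⟨y, hy, rfl⟩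
    · refine Or.inl (Or.inl ?_)
      simpa using hz

/-! ### The ring is not directed F-noetherian -/

/-- The element `t 0` on the diagonal. -/
def T0 : R0 d := ⟨⟨d.t 0, 0, 0, fun _ => d.ψ (d.t 0)⟩,
  ⟨∅, fun _ _ => ⟨rfl, rfl⟩⟩, fun j => d.ψL j _⟩

/-- The element with `a = 1`. -/
def V : R0 d := ⟨⟨0, 1, 0, 0⟩, ⟨∅, fun _ _ => ⟨rfl, (map_zero d.ψ).symm⟩⟩, fun j => (d.L j).zero_mem⟩

/-- The matrix unit in row `j`. -/
def E (i : ℕ) : R0 d := ⟨⟨0, 0, fun j => if j = i then 1 else 0, 0⟩,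
  ⟨{i}, fun j hj => ⟨if_neg (by simpa using hj), (map_zero d.ψ).symm⟩⟩, fun j => (d.L j).zero_mem⟩

/-- The set of `c`-components of a subring. -/
def cset (S : Subring (R0 d)) : Set K := {z | ∃ s ∈ S, s.1.c = z}

lemma left_fg (S : Subring (R0 d)) (hS : IsNoetherianRing S) (hV : V d ∈ S) :
    ∃ G : Finset K, ∀ M : AddSubmonoid K, (∀ g ∈ G, ∀ c ∈ cset d S, c * g ∈ M) →
      ∀ c ∈ cset d S, d.σ c ∈ M := by
  classical
  let v : S := ⟨V d, hV⟩
  let I : Ideal S := Ideal.span (Set.range fun s : S => v * s)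
  obtain ⟨G, hG'⟩ : I.FG := (isNoetherian_def.1 hS) I
  have hG : Submodule.span S (G : Set S) = I := hG'
  have hI : ∀ x ∈ I, x.1.1.c = 0 := by
    intro x hx
    refine Submodule.span_induction ?_ ?_ ?_ ?_ hx
    · rintro _ ⟨s, rfl⟩
      show (0 : K) * s.1.1.c = 0
      rw [zero_mul]
    · rfl
    · intro x y _ _ hx hy
      show x.1.1.c + y.1.1.c = 0
      rw [hx, hy, add_zero]
    · intro r x _ hx
      show r.1.1.c * x.1.1.c = 0
      rw [hx, mul_zero]
  refine ⟨G.image fun g => g.1.1.a, fun M hM c hc => ?_⟩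
  obtain ⟨s, hs, rfl⟩ := hc
  have hmem : v * ⟨s, hs⟩ ∈ Submodule.span S (G : Set S) := by
    rw [hG]
    exact Submodule.subset_span ⟨_, rfl⟩
  have key : ∀ x ∈ Submodule.span S (G : Set S), ∀ c ∈ cset d S, c * x.1.1.a ∈ M := by
    intro x hx
    refine Submodule.span_induction (p := fun x _ => ∀ c ∈ cset d S, c * x.1.1.a ∈ M)
      ?_ ?_ ?_ ?_ hx
    · intro x hx c hc
      exact hM _ (Finset.mem_image_of_mem _ hx) c hc
    · intro c _
      show c * 0 ∈ M
      rw [mul_zero]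
      exact M.zero_mem
    · intro x y _ _ hx hy c hc
      show c * (x.1.1.a + y.1.1.a) ∈ M
      rw [mul_add]
      exact M.add_mem (hx c hc) (hy c hc)
    · rintro r x hxG hx c ⟨s, hs, rfl⟩
      show s.1.c * (r.1.1.c * x.1.1.a + r.1.1.a * d.σ x.1.1.c) ∈ M
      rw [hG] at hxG
      rw [hI x hxG, map_zero, mul_zero, add_zero, ← mul_assoc]
      exact hx _ ⟨s * r.1, S.mul_mem hs r.2, rfl⟩
  have h1 := key _ hmem 1 ⟨1, S.one_mem, rfl⟩
  have h2 : (v * (⟨s, hs⟩ : S)).1.1.a = d.σ s.1.c := by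
    show (0 : K) * s.1.a + 1 * d.σ s.1.c = _
    rw [zero_mul, zero_add, one_mul]
  rwa [h2, one_mul] at h1

lemma right_fg (S : Subring (R0 d)) (hS : IsNoetherianRing Sᵐᵒᵖ) (j : ℕ) (hE : E d j ∈ S) :
    ∃ G : Finset K, ∀ M : AddSubmonoid K, (∀ g ∈ G, ∀ l ∈ d.L j, g * l ∈ M) →
      cset d S ⊆ M := by
  classical
  let v : S := ⟨E d j, hE⟩
  let I : Ideal Sᵐᵒᵖ := Ideal.span (Set.range fun s : S => MulOpposite.op (s * v))
  obtain ⟨G, hG'⟩ : I.FG := (isNoetherian_def.1 hS) I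
  have hG : Submodule.span Sᵐᵒᵖ (G : Set Sᵐᵒᵖ) = I := hG'
  have hI : ∀ x ∈ I, x.unop.1.1.c = 0 := by
    intro x hx
    refine Submodule.span_induction ?_ ?_ ?_ ?_ hx
    · rintro _ ⟨s, rfl⟩
      show s.1.1.c * (0 : K) = 0
      rw [mul_zero]
    · rfl
    · intro x y _ _ hx hy
      show x.unop.1.1.c + y.unop.1.1.c = 0
      rw [hx, hy, add_zero]
    · intro r x _ hx
      show x.unop.1.1.c * r.unop.1.1.c = 0
      rw [hx, zero_mul]
  refine ⟨G.image fun g => g.unop.1.1.e j, fun M hM c hc => ?_⟩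
  obtain ⟨s, hs, rfl⟩ := hc
  have hmem : MulOpposite.op ((⟨s, hs⟩ : S) * v) ∈ Submodule.span Sᵐᵒᵖ (G : Set Sᵐᵒᵖ) := by
    rw [hG]
    exact Submodule.subset_span ⟨_, rfl⟩
  have key : ∀ x ∈ Submodule.span Sᵐᵒᵖ (G : Set Sᵐᵒᵖ), ∀ l ∈ d.L j, x.unop.1.1.e j * l ∈ M := by
    intro x hx
    refine Submodule.span_induction (p := fun x _ => ∀ l ∈ d.L j, x.unop.1.1.e j * l ∈ M)
      ?_ ?_ ?_ ?_ hx
    · intro x hx l hl
      exact hM _ (Finset.mem_image_of_mem _ hx) l hl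
    · intro l _
      show 0 * l ∈ M
      rw [zero_mul]
      exact M.zero_mem
    · intro x y _ _ hx hy l hl
      show (x.unop.1.1.e j + y.unop.1.1.e j) * l ∈ M
      rw [add_mul]
      exact M.add_mem (hx l hl) (hy l hl)
    · intro r x hxG hx l hl
      show (x.unop.1.1.c * r.unop.1.1.e j + x.unop.1.1.e j * r.unop.1.1.l j) * l ∈ M
      rw [hG] at hxG
      rw [hI x hxG, zero_mul, zero_add, mul_assoc]
      exact hx _ ((d.L j).mul_mem (r.unop.1.2.2 j) hl)
  have h1 := key _ hmem 1 (d.L j).one_mem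
  have h2 : (MulOpposite.op ((⟨s, hs⟩ : S) * v)).unop.1.1.e j = s.1.c := by
    show s.1.c * (if j = j then (1 : K) else 0) + s.1.e j * 0 = _
    rw [if_pos rfl, mul_one, mul_zero, add_zero]
  rwa [h2, mul_one] at h1

/-- The `c`-components form a submonoid. -/
def csub (S : Subring (R0 d)) : Submonoid K where
  carrier := cset d S
  one_mem' := ⟨1, S.one_mem, rfl⟩
  mul_mem' := by
    rintro _ _ ⟨s, hs, rfl⟩ ⟨t, ht, rfl⟩
    exact ⟨s * t, S.mul_mem hs ht, rfl⟩

theorem not_directed : ¬ DirectedFNoetherian (R0 d) := by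
  classical
  rintro ⟨f, hf1, hf2, hf3⟩
  obtain ⟨G, hG⟩ := left_fg d (f {T0 d, V d}) (hf2 _).1 (hf1 _ _ (by simp))
  obtain ⟨p, hp, hpp⟩ := Nat.exists_infinite_primes (G.card + 1)
  obtain ⟨j, rfl⟩ : ∃ j, p = j + 1 := ⟨p - 1, (Nat.succ_pred_prime hpp).symm⟩
  have hj : 1 ≤ j := by have := hpp.two_le; omega
  have hSS : f {T0 d, V d} ≤ f {T0 d, V d, E d j} := hf3 _ _ (by
    intro x hx
    simp only [Finset.mem_insert, Finset.mem_singleton] at hx ⊢
    tauto)
  obtain ⟨H, hH⟩ := right_fg d (f {T0 d, V d, E d j}) (hf2 _).2 j (hf1 _ _ (by simp))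
  set S := f {T0 d, V d} with hSdef
  have hT : T0 d ∈ S := hf1 _ _ (by simp)
  clear_value S
  let N : Submodule (d.L j) K := Submodule.span (d.L j) (H : Set K)
  have hcN : cset d S ⊆ N := by
    rintro _ ⟨s, hs, rfl⟩
    refine hH N.toAddSubmonoid ?_ ⟨s, hSS hs, rfl⟩
    intro g hg l hl
    have := N.smul_mem (⟨l, hl⟩ : d.L j) (Submodule.subset_span hg)
    rw [mul_comm]
    exact this
  haveI halg : Algebra.IsAlgebraic (d.L j) K := d.alg {j} (d.L j) (by simp)
  let P : IntermediateField (d.L j) K := IntermediateField.adjoin (d.L j) (cset d S)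
  have hPspan : ∀ x, x ∈ P → x ∈ Submodule.span (d.L j) (cset d S) := by
    intro x hx
    have h1 : P.toSubalgebra = Algebra.adjoin (d.L j) (cset d S) :=
      IntermediateField.adjoin_toSubalgebra_of_isAlgebraic fun y _ =>
        Algebra.IsAlgebraic.isAlgebraic y
    have h2 : x ∈ Algebra.adjoin (d.L j) (cset d S) := by
      rw [← h1]
      exact hx
    have h3 : x ∈ Subalgebra.toSubmodule (Algebra.adjoin (d.L j) (cset d S)) := h2
    rw [Algebra.adjoin_eq_span] at h3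
    have h4 : Submonoid.closure (cset d S) = csub d S := Submonoid.closure_eq (csub d S)
    rw [h4] at h3
    exact h3
  have hcP : cset d S ⊆ P := IntermediateField.subset_adjoin _ _
  have hLP : ∀ x ∈ d.L j, x ∈ P := fun x hx => P.algebraMap_mem (⟨x, hx⟩ : d.L j)
  let Q : Submodule P K := Submodule.span P (G : Set K)
  have hσQ : ∀ x ∈ P, d.σ x ∈ Q := by
    intro x hx
    refine Submodule.span_induction (p := fun x _ => d.σ x ∈ Q) ?_ ?_ ?_ ?_ (hPspan x hx)
    · intro c hc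
      refine hG Q.toAddSubmonoid ?_ c hc
      intro g hg c' hc'
      exact Q.smul_mem (⟨c', hcP hc'⟩ : P) (Submodule.subset_span hg)
    · rw [map_zero]
      exact Q.zero_mem
    · intro x y _ _ hx hy
      rw [map_add]
      exact Q.add_mem hx hy
    · intro l x _ hx
      have h1 : d.σ (l : K) ∈ P := hLP _ ((d.σL j _).2 l.2)
      have h2 := Q.smul_mem (⟨_, h1⟩ : P) hx
      have h3 : d.σ (l • x) = d.σ (l : K) * d.σ x := map_mul d.σ (l : K) x
      rw [h3]
      exact h2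
  have htP : ∀ n, d.t n ∈ P := by
    intro n
    induction n with
    | zero => exact hcP ⟨T0 d, hT, rfl⟩
    | succ n ih =>
      by_contra hn
      have ha : d.t (n + 1) ^ (j + 1) ∈ P := hLP _ (d.tpow j (n + 1))
      have hirr : Irreducible (Polynomial.X ^ (j + 1) -
          Polynomial.C (⟨_, ha⟩ : P)) := by
        refine X_pow_sub_C_irreducible_of_prime hpp ?_
        rintro ⟨b, hb⟩ hba
        have hba' : b ^ (j + 1) = d.t (n + 1) ^ (j + 1) := congrArg Subtype.val hba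
        by_cases hb0 : b = 0
        · rw [hb0, zero_pow (by omega)] at hba'
          have : d.t (n + 1) = 0 := pow_eq_zero_iff (by omega) |>.1 hba'.symm
          rw [this] at hn
          exact hn P.zero_mem
        · have h1 : (d.t (n + 1) / b) ^ (j + 1) = 1 := by
            rw [div_pow, hba', div_self]
            rw [← hba']
            exact pow_ne_zero _ hb0
          have h2 := P.mul_mem (hLP _ (d.root j _ h1)) hb
          rw [div_mul_cancel₀ _ hb0] at h2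
          exact hn h2
      have hmin := minpoly.eq_of_irreducible_of_monic (x := d.t (n + 1)) hirr
        (by
          rw [map_sub, map_pow, Polynomial.aeval_X, Polynomial.aeval_C]
          exact sub_self _)
        (Polynomial.monic_X_pow_sub_C _ (by omega))
      have hdeg : (minpoly P (d.t (n + 1))).natDegree = j + 1 := by
        rw [← hmin, Polynomial.natDegree_X_pow_sub_C]
      have hli := linearIndependent_pow (K := P) (d.t (n + 1))
      have hpow : ∀ m : ℕ, d.t (n + 1) ^ m ∈ Q := by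
        intro m
        rw [← d.σt, ← map_pow]
        exact hσQ _ (pow_mem ih m)
      have hle := linearIndependent_le_span' _ hli (G : Set K) (by
        rintro _ ⟨i, rfl⟩
        exact hpow i)
      rw [Cardinal.mk_fin, hdeg] at hle
      simp only [Finset.coe_sort_coe, Fintype.card_coe, Nat.cast_le] at hle
      omega
  have hfin : Finite ℕ := LinearIndependent.finite_of_le_span_finite d.t (d.indep j hj)
    (H : Set K) (by
      rintro _ ⟨n, rfl⟩
      have h1 : Submodule.span (d.L j) (cset d S) ≤ N := Submodule.span_le.2 hcN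
      exact h1 (hPspan _ (htP n)))
  exact not_finite ℕ

end Pool.Agent.N85.Fnoeth
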