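import Pool.Agent.N85.Fnoeth

/-! F-noetherian rings: the concrete field data. -/

namespace Pool.Agent.N85.Fnoeth

open MvPolynomial

/-- The polynomial ring. -/
abbrev A0 := MvPolynomial (ℤ × ℕ) ℂ
/-- The field of rational functions. -/
abbrev KK := FractionRing A0

/-- The variables. -/
noncomputable def xx (i : ℤ × ℕ) : KK := algebraMap A0 KK (X i)
/-- The constants. -/
noncomputable def cc (z : ℂ) : KK := algebraMap A0 KK (C z)

/-- Lift of an injective endomorphism of the polynomial ring. -/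
noncomputable def lf (f : A0 →ₐ[ℂ] A0) (hf : Function.Injective f) : KK →+* KK :=
  IsFractionRing.lift (A := A0) (K := KK) (g := (algebraMap A0 KK).comp (f : A0 →+* A0))
    (by
      rw [RingHom.coe_comp]
      exact (IsFractionRing.injective A0 KK).comp hf)

lemma lf_algebraMap (f : A0 →ₐ[ℂ] A0) (hf : Function.Injective f) (p : A0) :
    lf f hf (algebraMap A0 KK p) = algebraMap A0 KK (f p) := by
  unfold lf
  rw [IsFractionRing.lift_algebraMap]
  rfl

lemma lf_cc (f : A0 →ₐ[ℂ] A0) (hf : Function.Injective f) (z : ℂ) :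
    lf f hf (cc z) = cc z := by
  unfold cc
  rw [lf_algebraMap]
  congr 1
  exact f.commutes z

lemma hom_ext {f g : KK →+* KK} (h1 : ∀ z, f (cc z) = g (cc z)) (h2 : ∀ i, f (xx i) = g (xx i)) :
    f = g := by
  refine IsFractionRing.ringHom_ext (A := A0) fun p => ?_
  have : f.comp (algebraMap A0 KK) = g.comp (algebraMap A0 KK) :=
    MvPolynomial.ringHom_ext h1 h2
  exact congrArg (fun h => h p) this

/-- The shift. -/
noncomputable def sh (m : ℤ) : KK →+* KK :=
  lf (rename fun i : ℤ × ℕ => (i.1 + m, i.2)) (rename_injective _ (by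
    rintro ⟨a, b⟩ ⟨c, e⟩ h
    simp only [Prod.mk.injEq, add_left_inj] at h
    exact Prod.ext h.1 h.2))

lemma sh_xx (m : ℤ) (i : ℤ × ℕ) : sh m (xx i) = xx (i.1 + m, i.2) := by
  unfold sh xx
  rw [lf_algebraMap, rename_X]

lemma sh_cc (m : ℤ) (z : ℂ) : sh m (cc z) = cc z := lf_cc _ _ _

lemma sh_comp (m n : ℤ) (h : m + n = 0) : (sh m).comp (sh n) = RingHom.id KK := by
  refine hom_ext (fun z => ?_) (fun i => ?_)
  · simp [sh_cc]
  · simp only [RingHom.comp_apply, sh_xx, RingHom.id_apply]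
    congr 1
    ext
    · show i.1 + n + m = i.1
      omega
    · rfl

/-- The shift automorphism. -/
noncomputable def shE : KK ≃+* KK :=
  RingEquiv.ofRingHom (sh 1) (sh (-1)) (sh_comp _ _ (by norm_num)) (sh_comp _ _ (by norm_num))

lemma shE_apply (x : KK) : shE x = sh 1 x := rfl

/-- The map raising the second index. -/
noncomputable def up : KK →+* KK :=
  lf (rename fun i : ℤ × ℕ => (i.1, i.2 + 1)) (rename_injective _ (by
    rintro ⟨a, b⟩ ⟨c, e⟩ h
    simp only [Prod.mk.injEq, add_left_inj] at h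
    exact Prod.ext h.1 h.2))

lemma up_xx (i : ℤ × ℕ) : up (xx i) = xx (i.1, i.2 + 1) := by
  unfold up xx
  rw [lf_algebraMap, rename_X]

lemma up_cc (z : ℂ) : up (cc z) = cc z := lf_cc _ _ _

/-- Scaling one variable. -/
noncomputable def sc (n : ℤ) (z : ℂ) : A0 →ₐ[ℂ] A0 :=
  aeval fun i => if i = (n, 0) then C z * X i else X i

lemma sc_comp (n : ℤ) (z w : ℂ) (h : w * z = 1) : (sc n w).comp (sc n z) = AlgHom.id ℂ A0 := by
  refine MvPolynomial.algHom_ext fun i => ?_
  by_cases hi : i = (n, 0)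
  · simp only [AlgHom.comp_apply, sc, aeval_X, hi, if_true, map_mul, AlgHom.id_apply]
    rw [MvPolynomial.aeval_C, MvPolynomial.algebraMap_eq, ← mul_assoc, ← C_mul, mul_comm z w, h,
      C_1, one_mul]
  · simp [sc, hi]

lemma sc_inj (n : ℤ) (z : ℂˣ) : Function.Injective (sc n (z : ℂ)) := by
  have h := sc_comp n (z : ℂ) ((z⁻¹ : ℂˣ) : ℂ) (by simp)
  exact Function.LeftInverse.injective (g := sc n ((z⁻¹ : ℂˣ) : ℂ)) fun p =>
    congrArg (fun f : A0 →ₐ[ℂ] A0 => f p) h

/-- The scaling homomorphisms. -/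
noncomputable def φ (z : ℂˣ) (n : ℤ) : KK →+* KK := lf (sc n (z : ℂ)) (sc_inj n z)

lemma φ_cc (z : ℂˣ) (n : ℤ) (w : ℂ) : φ z n (cc w) = cc w := lf_cc _ _ _

lemma φ_self (z : ℂˣ) (n : ℤ) : φ z n (xx (n, 0)) = cc z * xx (n, 0) := by
  unfold φ xx cc
  rw [lf_algebraMap, ← map_mul]
  congr 1
  simp [sc]

lemma φ_ne (z : ℂˣ) (n : ℤ) {i : ℤ × ℕ} (hi : i ≠ (n, 0)) : φ z n (xx i) = xx i := by
  unfold φ xx
  rw [lf_algebraMap]
  congr 1
  simp [sc, hi]

lemma φ_sh (z : ℂˣ) (n : ℤ) : (φ z (n + 1)).comp (sh 1) = (sh 1).comp (φ z n) := by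
  refine hom_ext (fun w => by simp [φ_cc, sh_cc]) fun i => ?_
  simp only [RingHom.comp_apply, sh_xx]
  by_cases hi : i = (n, 0)
  · subst hi
    rw [φ_self, φ_self, map_mul, sh_cc, sh_xx]
  · rw [φ_ne _ _ hi, φ_ne, sh_xx]
    intro h
    apply hi
    simp only [Prod.mk.injEq, add_left_inj] at h
    exact Prod.ext h.1 h.2

lemma φ_up (z : ℂˣ) (n : ℤ) : (φ z n).comp up = up := by
  refine hom_ext (fun w => by simp [φ_cc, up_cc]) fun i => ?_
  simp only [RingHom.comp_apply, up_xx]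
  exact φ_ne _ _ (by simp)

/-- A primitive root of unity as a unit. -/
noncomputable def ζ (j : ℕ) : ℂˣ :=
  Units.mk0 (Complex.exp (2 * Real.pi * Complex.I / ((j + 1 : ℕ) : ℂ))) (Complex.exp_ne_zero _)

lemma ζ_prim (j : ℕ) : IsPrimitiveRoot ((ζ j : ℂˣ) : ℂ) (j + 1) :=
  Complex.isPrimitiveRoot_exp (j + 1) (Nat.succ_ne_zero j)

/-- The fixed field. -/
noncomputable def LL (j : ℕ) : Subfield KK where
  carrier := {x | ∀ n, φ (ζ j) n x = x}
  zero_mem' n := map_zero _
  one_mem' n := map_one _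
  add_mem' hx hy n := by rw [map_add, hx n, hy n]
  neg_mem' hx n := by rw [map_neg, hx n]
  mul_mem' hx hy n := by rw [map_mul, hx n, hy n]
  inv_mem' x hx n := by rw [map_inv₀, hx n]

lemma mem_LL {j : ℕ} {x : KK} : x ∈ LL j ↔ ∀ n, φ (ζ j) n x = x := Iff.rfl

lemma cc_mem (j : ℕ) (z : ℂ) : cc z ∈ LL j := fun n => φ_cc _ _ _

lemma cc_inj : Function.Injective cc :=
  (IsFractionRing.injective A0 KK).comp (C_injective _ _)

lemma cc_pow (z : ℂ) (n : ℕ) : cc (z ^ n) = cc z ^ n := by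
  unfold cc
  rw [C_pow, map_pow]

lemma cc_one : cc 1 = 1 := by
  unfold cc
  rw [C_1, map_one]

lemma xx_ne (i : ℤ × ℕ) : xx i ≠ 0 := by
  unfold xx
  intro h
  have := (IsFractionRing.injective A0 KK) (h.trans (map_zero _).symm)
  exact X_ne_zero i this

lemma xpow_mem (j : ℕ) (i : ℤ × ℕ) {M : ℕ} (hM : j + 1 ∣ M) : xx i ^ M ∈ LL j := by
  intro n
  by_cases hi : i = (n, 0)
  · subst hi
    have h1 : ((ζ j : ℂˣ) : ℂ) ^ M = 1 := ((ζ_prim j).pow_eq_one_iff_dvd M).2 hM
    rw [map_pow, φ_self, mul_pow, ← cc_pow, h1, cc_one, one_mul]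
  · rw [map_pow, φ_ne _ _ hi]

/-- The field data. -/
noncomputable def dat : Data KK where
  σ := shE
  ψ := up
  L := LL
  t n := xx ((n : ℤ), 0)
  σL j x := by
    have key : ∀ n, φ (ζ j) (n + 1) (shE x) = shE (φ (ζ j) n x) := fun n =>
      congrArg (fun f : KK →+* KK => f x) (φ_sh (ζ j) n)
    rw [mem_LL, mem_LL]
    constructor
    · intro h n
      apply shE.injective
      rw [← key, h]
    · intro h n
      obtain ⟨m, rfl⟩ : ∃ m, n = m + 1 := ⟨n - 1, by ring⟩
      rw [key, h]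
  ψL j x n := congrArg (fun f : KK →+* KK => f x) (φ_up (ζ j) n)
  alg F D hD := by
    have hx : ∀ i, IsAlgebraic D (xx i) := by
      intro i
      have hM : 0 < ∏ j ∈ F, (j + 1) := Finset.prod_pos fun j _ => Nat.succ_pos j
      refine IsAlgebraic.of_pow hM ?_
      have h1 : xx i ^ ∏ j ∈ F, (j + 1) ∈ D :=
        (hD _).2 fun j hj => xpow_mem j i (Finset.dvd_prod_of_mem (fun j => j + 1) hj)
      exact isAlgebraic_algebraMap (⟨_, h1⟩ : D)
    have hc : ∀ z, IsAlgebraic D (cc z) := fun z =>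
      isAlgebraic_algebraMap (⟨_, (hD _).2 fun j _ => cc_mem j z⟩ : D)
    have hp : ∀ p : A0, algebraMap A0 KK p ∈ algebraicClosure D KK := by
      intro p
      induction p using MvPolynomial.induction_on with
      | C z => exact mem_algebraicClosure_iff.2 (hc z)
      | add p q hp hq => rw [map_add]; exact add_mem hp hq
      | mul_X p i hp => rw [map_mul]; exact mul_mem hp (mem_algebraicClosure_iff.2 (hx i))
    refine ⟨fun z => ?_⟩
    obtain ⟨a, b, _, rfl⟩ := IsFractionRing.div_surjective A0 z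
    exact mem_algebraicClosure_iff.1 (div_mem (hp a) (hp b))
  tpow j n := xpow_mem j _ dvd_rfl
  root j x hx := by
    have h1 : IsPrimitiveRoot (cc (ζ j : ℂ)) (j + 1) := by
      have h2 := (ζ_prim j).map_of_injective (f := (algebraMap A0 KK).comp (C : ℂ →+* A0)) cc_inj
      exact h2
    obtain ⟨i, _, hi⟩ := h1.eq_pow_of_pow_eq_one hx
    rw [← hi]
    exact pow_mem (cc_mem j _) i
  indep j hj := by
    rw [linearIndependent_iff']
    intro s g hg m hm
    have h1 : ∑ i ∈ s, (g i : KK) * xx ((i : ℤ), 0) = 0 := hg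
    have h2 : ∑ i ∈ s, (g i : KK) * φ (ζ j) m (xx ((i : ℤ), 0)) = 0 := by
      have := congrArg (φ (ζ j) m) h1
      rw [map_sum, map_zero] at this
      rw [← this]
      refine Finset.sum_congr rfl fun i _ => ?_
      rw [map_mul, (g i).2 m]
    have h3 : ∑ i ∈ s, (g i : KK) * (φ (ζ j) m (xx ((i : ℤ), 0)) - xx ((i : ℤ), 0)) = 0 := by
      simp only [mul_sub, Finset.sum_sub_distrib, h1, h2, sub_zero]
    rw [Finset.sum_eq_single_of_mem m hm, φ_self] at h3
    · have h4 : (g m : KK) * ((cc (ζ j) - 1) * xx ((m : ℤ), 0)) = 0 := by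
        rw [← h3]; ring
      have h5 : cc (ζ j) - 1 ≠ 0 := by
        rw [sub_ne_zero, ← cc_one]
        intro h
        have := cc_inj h
        exact (ζ_prim j).ne_one (by omega) this
      rcases mul_eq_zero.1 h4 with h | h
      · exact Subtype.ext h
      · exact absurd h (mul_ne_zero h5 (xx_ne _))
    · intro i _ him
      rw [φ_ne, sub_self, mul_zero]
      intro h
      apply him
      simp only [Prod.mk.injEq, Nat.cast_inj, and_true] at h
      exact h
  σt n := by
    show sh 1 (xx ((n : ℤ), 0)) = _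
    rw [sh_xx]
    push_cast
    rfl

end Pool.Agent.N85.Fnoeth
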