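import Mathlib

set_option autoImplicit false

/-!
The 3-group `1 + Kτ + Kτ² + Kτ³`, `K` the field with 27 elements, `τ x = x³ τ`: every element
`1 + aτ + ...` with `a ≠ 0` has cube `1 ± τ³`.
-/

namespace Pool.Agent.N85.Skew

/-- the field with 27 elements -/
abbrev K : Type := GaloisField 3 3

/-- the Frobenius of `K` -/
noncomputable abbrev fr : K →+* K := frobenius K 3

/-- the group `1 + Kτ + Kτ² + Kτ³` -/
@[ext] structure Gm where
  /-- coefficient of `τ` -/
  a : K
  /-- coefficient of `τ²` -/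
  b : K
  /-- coefficient of `τ³` -/
  c : K

namespace Gm

noncomputable instance : Mul Gm := ⟨fun x y => ⟨x.a + y.a, x.b + y.b + x.a * fr y.a,
  x.c + y.c + x.a * fr y.b + x.b * fr (fr y.a)⟩⟩
noncomputable instance : One Gm := ⟨⟨0, 0, 0⟩⟩
noncomputable instance : Inv Gm := ⟨fun x => ⟨-x.a, -x.b + x.a * fr x.a,
  -x.c + x.a * fr x.b + x.b * fr (fr x.a) - x.a * fr x.a * fr (fr x.a)⟩⟩

@[simp] lemma mul_a (x y : Gm) : (x * y).a = x.a + y.a := rfl
@[simp] lemma mul_b (x y : Gm) : (x * y).b = x.b + y.b + x.a * fr y.a := rfl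
@[simp] lemma mul_c (x y : Gm) :
    (x * y).c = x.c + y.c + x.a * fr y.b + x.b * fr (fr y.a) := rfl
@[simp] lemma one_a : (1 : Gm).a = 0 := rfl
@[simp] lemma one_b : (1 : Gm).b = 0 := rfl
@[simp] lemma one_c : (1 : Gm).c = 0 := rfl
@[simp] lemma inv_a (x : Gm) : (x⁻¹).a = -x.a := rfl
@[simp] lemma inv_b (x : Gm) : (x⁻¹).b = -x.b + x.a * fr x.a := rfl
@[simp] lemma inv_c (x : Gm) : (x⁻¹).c =
    -x.c + x.a * fr x.b + x.b * fr (fr x.a) - x.a * fr x.a * fr (fr x.a) := rfl

noncomputable instance : Group Gm where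
  mul_assoc x y z := by
    ext
    · simp; ring
    · simp only [mul_b, mul_a, map_add]; ring
    · simp only [mul_c, mul_b, mul_a, map_add, map_mul]; ring
  one_mul x := by ext <;> simp
  mul_one x := by ext <;> simp
  inv_mul_cancel x := by
    ext
    · simp
    · simp
    · simp only [mul_c, inv_c, inv_a, inv_b, one_c]; ring

noncomputable def equivProd : Gm ≃ K × K × K where
  toFun x := (x.a, x.b, x.c)
  invFun x := ⟨x.1, x.2.1, x.2.2⟩
  left_inv _ := rfl
  right_inv _ := rfl

instance : Finite Gm := Finite.of_equiv _ equivProd.symm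

/-- the projection to the coefficient of `τ`. -/
noncomputable def pr : Gm →* Multiplicative K where
  toFun x := Multiplicative.ofAdd x.a
  map_one' := rfl
  map_mul' _ _ := rfl

/-- the central element `1 + τ³`. -/
noncomputable def z : Gm := ⟨0, 0, 1⟩

lemma three : (3 : K) = 0 := by
  have := CharP.cast_eq_zero K 3
  exact_mod_cast this

lemma z_central (x : Gm) : z * x = x * z := by
  ext
  · simp [z]
  · simp [z]
  · simp [z]; ring

lemma z_sq : z ^ 2 = ⟨0, 0, -1⟩ := by
  rw [pow_two]
  ext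
  · simp [z]
  · simp [z]
  · simp only [mul_c, z, map_zero, mul_zero, add_zero]
    linear_combination three

lemma z_cube : z ^ 3 = 1 := by
  rw [pow_succ, z_sq]
  ext
  · simp [z]
  · simp [z]
  · simp [z]

lemma z_ne : z ≠ 1 := by
  intro h
  have := congrArg Gm.c h
  simp [z] at this

lemma z_sq_ne : z ^ 2 ≠ 1 := by
  intro h
  rw [z_sq] at h
  have := congrArg Gm.c h
  simp at this

lemma card_K : Nat.card K = 27 := by
  rw [GaloisField.card 3 3 (by norm_num)]
  norm_num

lemma norm_pm (a : K) (ha : a ≠ 0) :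
    a * fr a * fr (fr a) = 1 ∨ a * fr a * fr (fr a) = -1 := by
  have h : (a * fr a * fr (fr a)) ^ 2 = 1 := by
    have h1 : a ^ (Nat.card K - 1) = 1 := by
      have : Fintype K := Fintype.ofFinite K
      rw [Nat.card_eq_fintype_card]
      exact FiniteField.pow_card_sub_one_eq_one a ha
    rw [card_K] at h1
    simp only [frobenius_def]
    calc (a * a ^ 3 * (a ^ 3) ^ 3) ^ 2 = a ^ (27 - 1) := by ring
      _ = 1 := h1
  rw [pow_two] at h
  exact mul_self_eq_one_iff.1 h

/-- the key property of the group. -/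
lemma cube (x : Gm) (hx : x.a ≠ 0) : x ^ 3 = z ∨ x ^ 3 = z ^ 2 := by
  have h : x ^ 3 = ⟨0, 0, x.a * fr x.a * fr (fr x.a)⟩ := by
    rw [pow_succ, pow_two]
    ext
    · simp only [mul_a]
      linear_combination x.a * three
    · simp only [mul_a, mul_b]
      linear_combination (x.b + x.a * fr x.a) * three
    · simp only [mul_a, mul_b, mul_c]
      linear_combination (x.c + x.a * fr x.b + x.b * fr (fr x.a)) * three
  rw [z_sq, h]
  rcases norm_pm x.a hx with h1 | h1
  · left; rw [h1]; rfl
  · right; rw [h1]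

end Gm

end Pool.Agent.N85.Skew
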