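import Pool.Agent.N85.Skew

set_option autoImplicit false

/-!
Homomorphisms of the free group of rank three onto large finite groups such that every primitive
element has order dividing nine.
-/

namespace Pool.Agent.N85.Wreath

open FreeGroup Pool.Agent.N85.Skew Pool.Agent.N85.Skew.Gm

variable (k : ℕ)

/-- the wreath product -/
abbrev E : Type := RegularWreathProduct (Multiplicative (ZMod k)) Gm

/-- the subgroup of the wreath product on which `1 + z + z²` kills the base -/
def W : Subgroup (E k) where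
  carrier := {x | ∀ g, x.left g * x.left (z * g) * x.left (z ^ 2 * g) = 1}
  one_mem' := by intro g; simp
  mul_mem' := by
    intro x y hx hy g
    have h1 : x.right⁻¹ * (z * g) = z * (x.right⁻¹ * g) := by
      rw [← mul_assoc, ← mul_assoc, z_central]
    have h2 : x.right⁻¹ * (z ^ 2 * g) = z ^ 2 * (x.right⁻¹ * g) := by
      rw [pow_two, mul_assoc z z g, ← mul_assoc, ← z_central, mul_assoc, h1, ← mul_assoc]
    simp only [RegularWreathProduct.mul_left, Pi.mul_apply, h1, h2]
    have a1 := hx g
    have a2 := hy (x.right⁻¹ * g)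
    calc x.left g * y.left (x.right⁻¹ * g) * (x.left (z * g) * y.left (z * (x.right⁻¹ * g))) *
        (x.left (z ^ 2 * g) * y.left (z ^ 2 * (x.right⁻¹ * g)))
        = (x.left g * x.left (z * g) * x.left (z ^ 2 * g)) *
          (y.left (x.right⁻¹ * g) * y.left (z * (x.right⁻¹ * g)) *
            y.left (z ^ 2 * (x.right⁻¹ * g))) := by
          simp only [mul_left_comm, mul_assoc]
      _ = 1 := by rw [a1, a2, one_mul]
  inv_mem' := by
    intro x hx g
    have h1 : x.right * (z * g) = z * (x.right * g) := by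
      rw [← mul_assoc, ← mul_assoc, z_central]
    have h2 : x.right * (z ^ 2 * g) = z ^ 2 * (x.right * g) := by
      rw [pow_two, mul_assoc z z g, ← mul_assoc, ← z_central, mul_assoc, h1, ← mul_assoc]
    have a1 := hx (x.right * g)
    simp only [RegularWreathProduct.inv_left, Pi.inv_apply, h1, h2]
    rw [← mul_inv, ← mul_inv, a1, inv_one]

lemma cube_right (x : E k) : (x ^ 3).right = x.right ^ 3 := by
  rw [pow_succ, pow_two, pow_succ, pow_two]
  simp

lemma pow_nine (x : E k) (hx : x ∈ W k) (h : x.right ^ 3 = z ∨ x.right ^ 3 = z ^ 2) :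
    x ^ 9 = 1 := by
  have hy : x ^ 3 ∈ W k := (W k).pow_mem hx 3
  have hr : (x ^ 3).right = z ∨ (x ^ 3).right = z ^ 2 := by rw [cube_right]; exact h
  have e : x ^ 9 = x ^ 3 * x ^ 3 * x ^ 3 := by
    rw [← pow_add, ← pow_add]
  rw [e]
  generalize x ^ 3 = y at hy hr
  have z1 : z⁻¹ = z ^ 2 := by
    rw [inv_eq_iff_mul_eq_one, ← pow_succ', z_cube]
  have z2 : (z ^ 2)⁻¹ = z := by
    rw [inv_eq_iff_mul_eq_one, ← pow_succ, z_cube]
  have z3 : z ^ 2 * z ^ 2 = z := by
    rw [← pow_add, show 2 + 2 = 3 + 1 from rfl, pow_add, z_cube, one_mul, pow_one]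
  ext g
  · simp only [RegularWreathProduct.mul_left, RegularWreathProduct.mul_right, Pi.mul_apply,
      RegularWreathProduct.one_left, Pi.one_apply]
    have a := hy g
    rcases hr with h1 | h1
    · rw [h1, z1, ← pow_two, z2, mul_right_comm]
      exact a
    · rw [h1, z2, z3, z1]
      exact a
  all_goals
    simp only [RegularWreathProduct.mul_right, RegularWreathProduct.one_right]
    have hh : y.right * y.right * y.right = 1 := by
      rcases hr with h1 | h1
      · rw [h1, ← pow_two, ← pow_succ, z_cube]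
      · rw [h1, z3, ← pow_succ', z_cube]
    rw [hh]

open Classical in
/-- the function supported on `{1, z}` -/
noncomputable def f0 : Gm → Multiplicative (ZMod k) := fun g =>
  if g = 1 then Multiplicative.ofAdd 1 else if g = z then Multiplicative.ofAdd (-1) else 1

lemma f0_one : f0 k 1 = Multiplicative.ofAdd 1 := by simp [f0]
lemma f0_z : f0 k z = Multiplicative.ofAdd (-1) := by simp [f0, z_ne]
lemma f0_other (g : Gm) (h1 : g ≠ 1) (h2 : g ≠ z) : f0 k g = 1 := by simp [f0, h1, h2]

lemma f0_sum (g : Gm) : f0 k g * f0 k (z * g) * f0 k (z ^ 2 * g) = 1 := by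
  have hzz : z ^ 2 ≠ z := by
    intro h
    apply z_ne
    rw [pow_two] at h
    simpa using h
  by_cases h1 : g = 1
  · subst h1
    rw [mul_one, mul_one, f0_one, f0_z, f0_other k _ z_sq_ne hzz, mul_one, ← ofAdd_add]
    simp
  by_cases h2 : g = z
  · subst h2
    rw [← pow_two, ← pow_succ, z_cube, f0_one, f0_z, f0_other k _ z_sq_ne hzz, mul_one,
      ← ofAdd_add]
    simp
  by_cases h3 : g = z ^ 2
  · subst h3
    rw [← pow_succ', z_cube, ← pow_add, show 2 + 2 = 3 + 1 from rfl, pow_add, z_cube, one_mul,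
      pow_one, f0_one, f0_z, f0_other k _ z_sq_ne hzz, one_mul, ← ofAdd_add]
    simp
  · have c1 : ∀ x : Gm, z ^ 2 * x = 1 → x = z := by
      intro x hx
      calc x = z ^ 3 * x := by rw [z_cube, one_mul]
        _ = z * (z ^ 2 * x) := by rw [← mul_assoc, ← pow_succ']
        _ = z := by rw [hx, mul_one]
    have c2 : ∀ x : Gm, z * x = 1 → x = z ^ 2 := by
      intro x hx
      calc x = z ^ 3 * x := by rw [z_cube, one_mul]
        _ = z ^ 2 * (z * x) := by rw [← mul_assoc, ← pow_succ]
        _ = z ^ 2 := by rw [hx, mul_one]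
    have c3 : ∀ x : Gm, z ^ 2 * x = z → x = z ^ 2 := by
      intro x hx
      calc x = z ^ 3 * x := by rw [z_cube, one_mul]
        _ = z * (z ^ 2 * x) := by rw [← mul_assoc, ← pow_succ']
        _ = z ^ 2 := by rw [hx, ← pow_two]
    rw [f0_other k g h1 h2, f0_other k (z * g) (fun h => h3 (c2 g h))
      (fun h => h1 (by simpa using h)), f0_other k (z ^ 2 * g) (fun h => h2 (c1 g h))
      (fun h => h3 (c3 g h)), one_mul, one_mul]

/-- elements with prescribed first coordinate -/
noncomputable def A (x : K) : Gm := ⟨x, 0, 0⟩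

/-- a basis of the field with 27 elements over its prime field -/
noncomputable def bas : Module.Basis (Fin 3) (ZMod 3) K :=
  Module.finBasisOfFinrankEq (ZMod 3) K (GaloisField.finrank 3 (by norm_num))

/-- the homomorphism -/
noncomputable def phi : FreeGroup (Fin 3) →* E k :=
  FreeGroup.lift ![⟨f0 k, A (bas 0)⟩, ⟨1, A (bas 1)⟩, ⟨1, A (bas 2)⟩]

lemma phi_mem (w : FreeGroup (Fin 3)) : phi k w ∈ W k := by
  have h : (phi k).range ≤ W k := by
    rw [phi, FreeGroup.range_lift_eq_closure, Subgroup.closure_le]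
    rintro _ ⟨i, rfl⟩
    fin_cases i
    · intro g
      exact f0_sum k g
    · intro g
      simp
    · intro g
      simp
  exact h ⟨w, rfl⟩

/-- the composite to the elementary abelian group -/
noncomputable def psi : FreeGroup (Fin 3) →* Multiplicative K :=
  pr.comp (RegularWreathProduct.rightHom.comp (phi k))

lemma psi_apply (w : FreeGroup (Fin 3)) :
    psi k w = Multiplicative.ofAdd ((phi k w).right.a) := rfl

lemma psi_of (i : Fin 3) : psi k (of i) = Multiplicative.ofAdd (bas i) := by
  rw [psi_apply, phi, FreeGroup.lift_apply_of]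
  fin_cases i <;> rfl

lemma psi_surj : Function.Surjective (psi k) := by
  intro x
  have h := bas.sum_repr (Multiplicative.toAdd x)
  refine ⟨of 0 ^ (bas.repr (Multiplicative.toAdd x) 0).val *
    of 1 ^ (bas.repr (Multiplicative.toAdd x) 1).val *
    of 2 ^ (bas.repr (Multiplicative.toAdd x) 2).val, ?_⟩
  simp only [_root_.map_mul, map_pow, psi_of]
  rw [Fin.sum_univ_three] at h
  rw [← ofAdd_nsmul, ← ofAdd_nsmul, ← ofAdd_nsmul, ← ofAdd_add, ← ofAdd_add]
  apply Multiplicative.toAdd.injective
  rw [toAdd_ofAdd]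
  have e : ∀ (c : ZMod 3) (y : K), c.val • y = c • y := by
    intro c y
    conv_rhs => rw [← ZMod.natCast_zmod_val c]
    rw [Nat.cast_smul_eq_nsmul]
  rw [e, e, e]
  exact h

/-- a surjection of the free group of rank three onto the elementary abelian group of order 27
kills no basis element. -/
lemma ne_one_of_surj (f : FreeGroup (Fin 3) →* Multiplicative K) (hf : Function.Surjective f)
    (j : Fin 3) : f (of j) ≠ 1 := by
  intro hj
  classical
  set S : Finset K := (Finset.univ.erase j).image fun i => Multiplicative.toAdd (f (of i)) with hS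
  have hmem : ∀ w, Multiplicative.toAdd (f w) ∈ Submodule.span (ZMod 3) (S : Set K) := by
    intro w
    induction w using FreeGroup.induction_on with
    | C1 => rw [_root_.map_one]; exact Submodule.zero_mem _
    | of i =>
      by_cases h : i = j
      · subst h
        rw [hj]; exact Submodule.zero_mem _
      · apply Submodule.subset_span
        rw [hS]
        simp only [Finset.coe_image, Set.mem_image, Finset.mem_coe, Finset.mem_erase,
          Finset.mem_univ, and_true]
        exact ⟨i, h, rfl⟩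
    | inv_of i ih =>
      rw [_root_.map_inv, toAdd_inv]
      exact Submodule.neg_mem _ ih
    | mul x y hx hy =>
      rw [_root_.map_mul, toAdd_mul]
      exact Submodule.add_mem _ hx hy
  have htop : Submodule.span (ZMod 3) (S : Set K) = ⊤ := by
    rw [eq_top_iff]
    intro x _
    obtain ⟨w, hw⟩ := hf (Multiplicative.ofAdd x)
    have := hmem w
    rwa [hw] at this
  have h1 := finrank_span_finset_le_card (R := ZMod 3) S
  rw [Set.finrank, htop, finrank_top, GaloisField.finrank 3 (by norm_num)] at h1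
  have h2 : S.card ≤ 2 := by
    refine Finset.card_image_le.trans ?_
    rw [Finset.card_erase_of_mem (Finset.mem_univ j)]
    simp
  omega

lemma prim_pow (α : MulAut (FreeGroup (Fin 3))) (j : Fin 3) : phi k (α (of j)) ^ 9 = 1 := by
  apply pow_nine k _ (phi_mem k _)
  apply Gm.cube
  have h : ((psi k).comp α.toMonoidHom) (of j) ≠ 1 := by
    apply ne_one_of_surj
    exact (psi_surj k).comp α.surjective
  intro h0
  apply h
  change psi k (α (of j)) = 1
  rw [psi_apply, h0]
  rfl

lemma f0_a (g : Gm) (h : g.a ≠ 0) : f0 k g = 1 := by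
  apply f0_other
  · rintro rfl
    exact h rfl
  · rintro rfl
    exact h rfl

/-- the word whose image is a large element of the base -/
def w : FreeGroup (Fin 3) := of 0 ^ 3 * of 1 * (of 0 ^ 3)⁻¹ * (of 1)⁻¹

lemma left_cube (x : E k) (g : Gm) :
    (x ^ 3).left g = x.left g * x.left (x.right⁻¹ * g) * x.left ((x.right * x.right)⁻¹ * g) := by
  rw [pow_succ, pow_two]
  simp

lemma phi_zero : phi k (of 0) = ⟨f0 k, A (bas 0)⟩ := by
  rw [phi, FreeGroup.lift_apply_of]; rfl
lemma phi_one : phi k (of 1) = ⟨1, A (bas 1)⟩ := by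
  rw [phi, FreeGroup.lift_apply_of]; rfl
lemma phi_two : phi k (of 2) = ⟨1, A (bas 2)⟩ := by
  rw [phi, FreeGroup.lift_apply_of]; rfl

lemma cube_central (x g : Gm) (h : x.a ≠ 0) : x ^ 3 * g = g * x ^ 3 := by
  rcases Gm.cube x h with h1 | h1
  · rw [h1, z_central]
  · rw [h1, pow_two, mul_assoc, z_central, ← mul_assoc, z_central, mul_assoc]

/-- the function `h` -/
noncomputable def hh (g : Gm) : Multiplicative (ZMod k) :=
  f0 k g * f0 k ((A (bas 0))⁻¹ * g) * f0 k ((A (bas 0) * A (bas 0))⁻¹ * g)

lemma bas_ne (i : Fin 3) : bas i ≠ 0 := bas.ne_zero i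

lemma phi_w_right : (phi k w).right = 1 := by
  simp only [w, _root_.map_mul, map_pow, _root_.map_inv, phi_zero, phi_one]
  simp only [RegularWreathProduct.mul_right, RegularWreathProduct.inv_right, cube_right]
  rw [cube_central _ _ (show (A (bas 0)).a ≠ 0 from bas_ne 0)]
  group

lemma phi_w_left (g : Gm) : (phi k w).left g = hh k g * (hh k ((A (bas 1))⁻¹ * g))⁻¹ := by
  simp only [w, _root_.map_mul, map_pow, _root_.map_inv, phi_zero, phi_one]
  have hc := cube_central (A (bas 0)) (A (bas 1))⁻¹ (bas_ne 0)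
  simp only [RegularWreathProduct.mul_left, RegularWreathProduct.inv_left,
    RegularWreathProduct.mul_right, Pi.mul_apply, Pi.inv_apply, Pi.one_apply, cube_right,
    left_cube, mul_one, inv_one, hh]
  have e : ∀ g : Gm, A (bas 0) ^ 3 * ((A (bas 0) ^ 3 * A (bas 1))⁻¹ * g) = (A (bas 1))⁻¹ * g := by
    intro g
    rw [mul_inv_rev, ← mul_assoc, ← mul_assoc, hc]
    group
  rw [e]

lemma pow_left (x : E k) (hx : x.right = 1) (M : ℕ) :
    (x ^ M).right = 1 ∧ ∀ g, (x ^ M).left g = x.left g ^ M := by
  induction M with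
  | zero => simp
  | succ M ih =>
    rw [pow_succ]
    refine ⟨by simp [ih.1, hx], fun g => ?_⟩
    simp [ih.1, ih.2 g, pow_succ]

lemma hh_of (g : Gm) (h0 : g.a ≠ 0) (h1 : -bas 0 + g.a ≠ 0) (h2 : -(bas 0 + bas 0) + g.a ≠ 0) :
    hh k g = 1 := by
  rw [hh, f0_a k g h0, f0_a k _ h1, f0_a k _ h2]
  simp

lemma coord_ne (x : K) (i : Fin 3) (h : bas.coord i x ≠ 0) : x ≠ 0 := by
  rintro rfl
  simp at h

lemma v_one : (phi k w).left 1 = Multiplicative.ofAdd 1 := by
  rw [phi_w_left, mul_one, hh_of k ((A (bas 1))⁻¹), hh, mul_one, mul_one, f0_one, f0_a, f0_a]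
  · simp
  · apply coord_ne _ 0
    simp [A]
    decide
  · apply coord_ne _ 0
    simp [A]
  · apply coord_ne _ 1
    simp [A]
  · apply coord_ne _ 1
    simp [A]
  · apply coord_ne _ 1
    simp [A]

lemma v_two : (phi k w).left (A (bas 2))⁻¹ = 1 := by
  rw [phi_w_left, hh_of k ((A (bas 2))⁻¹), hh_of k ((A (bas 1))⁻¹ * (A (bas 2))⁻¹)]
  · simp
  all_goals
    apply coord_ne _ 2
    simp [A]

lemma not_commute (M : ℕ) (hM : 0 < M) (hk : M < k) :
    ¬ Commute (phi k w ^ M) (phi k (of 2)) := by
  intro h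
  obtain ⟨p1, p2⟩ := pow_left k (phi k w) (phi_w_right k) M
  have h1 := congrArg (fun x : E k => x.left 1) h.eq
  simp only [RegularWreathProduct.mul_left, Pi.mul_apply, phi_two, p2, Pi.one_apply,
    mul_one, one_mul] at h1
  rw [v_two, v_one, one_pow, ← ofAdd_nsmul] at h1
  have h2 : M • (1 : ZMod k) = 0 := Multiplicative.ofAdd.injective h1
  rw [nsmul_eq_mul, mul_one, ZMod.natCast_eq_zero_iff] at h2
  exact absurd (Nat.le_of_dvd hM h2) (by omega)

end Pool.Agent.N85.Wreath
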